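import Pool.Agent.H18.Gro7

set_option autoImplicit false

namespace Pool.Agent.Results.MP_b48dd4_gt.Bound

open Pool.Agent.H18.Gro

/-- Gromov's conjecture: the number of balanced vertices of a planar geodesic net is bounded by a
function of the number of unbalanced vertices and of the total imbalance. -/
theorem result :
    ∃ F : ℕ → ℝ → ℕ, ∀ (V : Finset ℂ) (G : SimpleGraph ℂ) (n : ℕ) (I : ℝ),
      (∀ a b : ℂ, G.Adj a b → a ∈ V ∧ b ∈ V) →
      (∀ a b c d : ℂ, G.Adj a b → G.Adj c d →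
          ¬ ((a = c ∧ b = d) ∨ (a = d ∧ b = c)) →
          ∀ x ∈ segment ℝ a b ∩ segment ℝ c d, (x = a ∨ x = b) ∧ (x = c ∨ x = d)) →
      (∀ v ∈ V, (∑ᶠ w ∈ G.neighborSet v, (w - v) / ((‖w - v‖ : ℝ) : ℂ)) = 0 →
          3 ≤ (G.neighborSet v).ncard) →
      {v : ℂ | v ∈ V ∧
          (∑ᶠ w ∈ G.neighborSet v, (w - v) / ((‖w - v‖ : ℝ) : ℂ)) ≠ 0}.ncard = n →
      ∑ v ∈ V, ‖∑ᶠ w ∈ G.neighborSet v, (w - v) / ((‖w - v‖ : ℝ) : ℂ)‖ ≤ I →
      {v : ℂ | v ∈ V ∧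
          (∑ᶠ w ∈ G.neighborSet v, (w - v) / ((‖w - v‖ : ℝ) : ℂ)) = 0}.ncard ≤ F n I := by
  classical
  choose b hb using gromov
  refine ⟨fun n I => b n ⌈I⌉₊, fun V G n I h1 h2 h3 h4 h5 => ?_⟩
  have e0 : ∀ v, G.neighborSet v = ((V.filter (G.Adj v) : Finset ℂ) : Set ℂ) := by
    intro v
    ext w
    simp only [SimpleGraph.mem_neighborSet, Finset.coe_filter, Set.mem_setOf_eq]
    exact ⟨fun t => ⟨(h1 v w t).2, t⟩, fun t => t.2⟩
  have e1 : ∀ v, (∑ᶠ w ∈ G.neighborSet v, (w - v) / ((‖w - v‖ : ℝ) : ℂ)) =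
      Imb V G.Adj id v := by
    intro v
    rw [e0, finsum_mem_coe_finset]
    unfold Imb
    congr
  have e2 : ∀ v, (G.neighborSet v).ncard = dg V G.Adj v := by
    intro v
    rw [e0, Set.ncard_coe_finset]
    unfold dg
    congr
  simp only [e1, e2] at h3 h4 h5 ⊢
  have hn : GNet V G.Adj id := by
    refine ⟨fun a b t => t.symm, fun a => G.irrefl, fun a b t => (h1 a b t).1,
      fun a b c d t1 t2 t3 x x1 x2 => (h2 a b c d t1 t2 t3 x ⟨x1, x2⟩).1, fun v hv => ?_⟩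
    by_contra hc
    have e : V.filter (G.Adj v) = ∅ := Finset.filter_eq_empty_iff.mpr (fun w _ t => hc ⟨w, t⟩)
    have i0 : Imb V G.Adj id v = 0 := by rw [← e1, e0, e]; simp
    have := h3 v hv i0
    rw [← e2, e0, e] at this
    simp at this
  have := hb n ⌈I⌉₊ ℂ V G.Adj id hn (fun a _ b _ t => t) h3 (h5.trans (Nat.le_ceil I)) (by
    rw [← h4, ← Set.ncard_coe_finset]
    apply le_of_eq
    congr 1
    ext v
    simp)
  refine le_trans ?_ this
  rw [← Set.ncard_coe_finset]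
  exact Set.ncard_le_ncard (fun v hv => hv.1) V.finite_toSet

end Pool.Agent.Results.MP_b48dd4_gt.Bound
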